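import Mathlib

open Filter Topology

namespace Pool.Agent.Results.MP_93a94a_an.NeverPeriodic

/-- `p` is the least positive integer with `α (n+p) = α n` for all `n`. -/
def IsPrimePeriod (α : ℕ → ℝ) (p : ℕ) : Prop :=
  0 < p ∧ (∀ n, α (n + p) = α n) ∧ ∀ q, 0 < q → (∀ n, α (n + q) = α n) → p ≤ q

/-- Positive solutions of (E), the index shifted by `2k+2`: `x n` stands for `x_{n-(2k+2)}`. -/
def IsPosSol (k : ℕ) (α : ℕ → ℝ) (x : ℕ → ℝ) : Prop :=
  (∀ n, 0 < x n) ∧
  ∀ n, x (n + (2 * k + 3)) = α n / (∏ i ∈ Finset.range (k + 1), x (n + (k + 2) + i)) +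
    1 / (∏ i ∈ Finset.range (k + 1), x (n + i))

/-- `x` tends to a `(k+2)`-periodic solution of (E). -/
def TendsToPeriodic (k : ℕ) (α : ℕ → ℝ) (x : ℕ → ℝ) : Prop :=
  ∃ y, IsPosSol k α y ∧ (∀ n, y (n + (k + 2)) = y n) ∧
    Tendsto (fun n => x n - y n) atTop (𝓝 0)

/-- The solution with all initial values equal to `1`. -/
noncomputable def sol (k : ℕ) (α : ℕ → ℝ) (n : ℕ) : ℝ :=
  if _h : n < 2 * k + 3 then 1 else
    α (n - (2 * k + 3)) / (∏ i : Fin (k + 1), sol k α (n - (2 * k + 3) + (k + 2) + i)) +
    1 / (∏ i : Fin (k + 1), sol k α (n - (2 * k + 3) + i))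
termination_by n
decreasing_by all_goals (have := i.2; omega)

lemma sol_pos (k : ℕ) (α : ℕ → ℝ) (h0 : ∀ n, 0 ≤ α n) (n : ℕ) : 0 < sol k α n := by
  induction n using Nat.strong_induction_on with
  | _ n ih =>
    rw [sol]
    split_ifs with h
    · exact one_pos
    · have h1 : 0 < ∏ i : Fin (k + 1), sol k α (n - (2 * k + 3) + (k + 2) + i) :=
        Finset.prod_pos fun i _ => ih _ (by have := i.2; omega)
      have h2 : 0 < ∏ i : Fin (k + 1), sol k α (n - (2 * k + 3) + i) :=
        Finset.prod_pos fun i _ => ih _ (by have := i.2; omega)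
      have := h0 (n - (2 * k + 3))
      positivity

lemma sol_isPosSol (k : ℕ) (α : ℕ → ℝ) (h0 : ∀ n, 0 ≤ α n) : IsPosSol k α (sol k α) := by
  refine ⟨sol_pos k α h0, fun n => ?_⟩
  rw [sol]
  have h : ¬ (n + (2 * k + 3) < 2 * k + 3) := by omega
  rw [dif_neg h]
  simp only [Nat.add_sub_cancel]
  rw [Finset.prod_range, Finset.prod_range]

/-- If a positive solution approaches a positive `(k+2)`-periodic sequence `y`, then `α` is
constant. -/
lemma const_of_tendsto (k p : ℕ) (hp : 0 < p) (α : ℕ → ℝ) (hper : ∀ n, α (n + p) = α n)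
    (x y : ℕ → ℝ) (hx : IsPosSol k α x) (hy : ∀ n, 0 < y n) (hyp : ∀ n, y (n + (k + 2)) = y n)
    (hlim : Tendsto (fun n => x n - y n) atTop (𝓝 0)) (n : ℕ) : α (n + 1) = α n := by
  have hym : ∀ m n, y (n + m * (k + 2)) = y n := by
    intro m
    induction m with
    | zero => intro n; simp
    | succ m ih => intro n; rw [show n + (m + 1) * (k + 2) = (n + m * (k + 2)) + (k + 2) by ring,
        hyp, ih]
  have ham : ∀ m n, α (n + m * p) = α n := by
    intro m
    induction m with
    | zero => intro n; simp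
    | succ m ih => intro n; rw [show n + (m + 1) * p = (n + m * p) + p by ring, hper, ih]
  -- limits along the arithmetic progression `n + m p (k+2)`
  have hsub : ∀ j, Tendsto (fun m : ℕ => x (j + m * (p * (k + 2)))) atTop (𝓝 (y j)) := by
    intro j
    have h1 : Tendsto (fun m : ℕ => j + m * (p * (k + 2))) atTop atTop := by
      apply tendsto_atTop_mono (f := fun m : ℕ => m) (fun m => ?_) tendsto_id
      have : 1 ≤ p * (k + 2) := Nat.mul_pos hp (by omega)
      nlinarith
    have h2 := hlim.comp h1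
    have h3 : (fun m : ℕ => x (j + m * (p * (k + 2)))) =
        fun m : ℕ => ((fun n => x n - y n) ∘ fun m : ℕ => j + m * (p * (k + 2))) m + y j := by
      funext m
      have := hym (m * p) j
      rw [show m * p * (k + 2) = m * (p * (k + 2)) by ring] at this
      simp [this]
    rw [h3]
    simpa using h2.add_const (y j)
  have hrec : ∀ n, y (n + (2 * k + 3)) =
      α n / (∏ i ∈ Finset.range (k + 1), y (n + (k + 2) + i)) +
      1 / (∏ i ∈ Finset.range (k + 1), y (n + i)) := by
    intro n
    have e1 := hsub (n + (2 * k + 3))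
    have e2 : Tendsto (fun m : ℕ => α n / (∏ i ∈ Finset.range (k + 1),
        x (n + (k + 2) + i + m * (p * (k + 2)))) +
        1 / (∏ i ∈ Finset.range (k + 1), x (n + i + m * (p * (k + 2))))) atTop
        (𝓝 (α n / (∏ i ∈ Finset.range (k + 1), y (n + (k + 2) + i)) +
        1 / (∏ i ∈ Finset.range (k + 1), y (n + i)))) := by
      apply Tendsto.add
      · apply Tendsto.div tendsto_const_nhds
        · exact tendsto_finsetProd _ fun i _ => hsub _
        · exact (Finset.prod_pos fun i _ => hy _).ne'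
      · apply Tendsto.div tendsto_const_nhds
        · exact tendsto_finsetProd _ fun i _ => hsub _
        · exact (Finset.prod_pos fun i _ => hy _).ne'
    refine tendsto_nhds_unique e1 (e2.congr fun m => ?_)
    have h := hx.2 (n + m * (p * (k + 2)))
    have ha := ham (m * (k + 2)) n
    rw [show n + (2 * k + 3) + m * (p * (k + 2)) = n + m * (p * (k + 2)) + (2 * k + 3) by ring, h,
      show n + m * (p * (k + 2)) = n + m * (k + 2) * p by ring, ha]
    congr 2
    · apply Finset.prod_congr rfl; intro i _; congr 1; ring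
    · apply Finset.prod_congr rfl; intro i _; congr 1; ring
  have hP : ∀ n, ∏ i ∈ Finset.range (k + 2), y (n + i) = α n + 1 := by
    intro n
    have h1 := hrec n
    rw [show n + (2 * k + 3) = (n + (k + 1)) + (k + 2) by ring, hyp] at h1
    have h2 : ∏ i ∈ Finset.range (k + 1), y (n + (k + 2) + i) =
        ∏ i ∈ Finset.range (k + 1), y (n + i) := by
      apply Finset.prod_congr rfl; intro i _
      rw [show n + (k + 2) + i = n + i + (k + 2) by ring, hyp]
    rw [h2] at h1
    have h3 : 0 < ∏ i ∈ Finset.range (k + 1), y (n + i) := Finset.prod_pos fun i _ => hy _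
    rw [Finset.prod_range_succ, h1]
    field_simp
  have hshift : ∏ i ∈ Finset.range (k + 2), y (n + 1 + i) =
      ∏ i ∈ Finset.range (k + 2), y (n + i) := by
    rw [Finset.prod_range_succ, Finset.prod_range_succ' (fun i => y (n + i))]
    have h1 : y (n + 1 + (k + 1)) = y (n + 0) := by
      rw [show n + 1 + (k + 1) = n + (k + 2) by ring, hyp, add_zero]
    rw [h1]
    congr 1
    apply Finset.prod_congr rfl; intro i _; congr 1; ring
  have := hP n
  have := hP (n + 1)
  linarith

/-- **Answer to Q1: the property never holds.** For every `k ≥ 0`, every `p ≥ 2` and every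
nonnegative sequence `α` of prime period `p`, it is not the case that each positive solution of (E)
tends to a `(k+2)`-periodic solution; in fact no positive solution of (E) is asymptotic to a
positive `(k+2)`-periodic sequence, whether or not that sequence solves (E). -/
theorem result (k p : ℕ) (hp : 2 ≤ p) (α : ℕ → ℝ) (h0 : ∀ n, 0 ≤ α n)
    (hper : IsPrimePeriod α p) :
    (¬ ∀ x, IsPosSol k α x → TendsToPeriodic k α x) ∧
    (∀ x, IsPosSol k α x → ∀ y : ℕ → ℝ, (∀ n, 0 < y n) → (∀ n, y (n + (k + 2)) = y n) →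
      ¬ Tendsto (fun n => x n - y n) atTop (𝓝 0)) := by
  have key : ∀ x, IsPosSol k α x → ∀ y : ℕ → ℝ, (∀ n, 0 < y n) → (∀ n, y (n + (k + 2)) = y n) →
      ¬ Tendsto (fun n => x n - y n) atTop (𝓝 0) := by
    intro x hx y hy hyp hlim
    have h1 := const_of_tendsto k p hper.1 α hper.2.1 x y hx hy hyp hlim
    have := hper.2.2 1 one_pos h1
    omega
  refine ⟨fun h => ?_, key⟩
  obtain ⟨y, hy, hyp, hlim⟩ := h _ (sol_isPosSol k α h0)
  exact key _ (sol_isPosSol k α h0) y hy.1 hyp hlim

end Pool.Agent.Results.MP_93a94a_an.NeverPeriodic
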